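import Pool.Agent.Q75.HM.Stm

/-!
# Project HM, job GR: the greedy construction
-/

set_option autoImplicit false

namespace Pool.Agent.Q238.HM

open Complex Set Metric Filter Topology

open scoped Real ComplexConjugate

open Pool.Agent.Q75.HM

lemma ld_HS (s c : ℝ) : LD (HS s c) := by
  refine ⟨?_, ?_⟩
  · have h1 : IsOpen {z : ℂ | z.re < s} := isOpen_lt Complex.continuous_re continuous_const
    have h2 : IsOpen {z : ℂ | |z.im| < c} :=
      isOpen_lt (continuous_abs.comp Complex.continuous_im) continuous_const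
    exact h1.inter h2
  · intro z hz w h1 h2
    exact ⟨lt_of_le_of_lt h1 hz.1, lt_of_le_of_lt h2 hz.2⟩

lemma ld_union {A B : Set ℂ} (hA : LD A) (hB : LD B) : LD (A ∪ B) := by
  refine ⟨hA.1.union hB.1, ?_⟩
  rintro z (hz | hz) w h1 h2
  · exact Or.inl (hA.2 z hz w h1 h2)
  · exact Or.inr (hB.2 z hz w h1 h2)

lemma gd_zero (H : Set ℂ) (τ : ℝ) (c : ℕ → ℝ) : Gd H τ c 0 = H := by
  unfold Gd
  rw [Finset.Icc_eq_empty (by norm_num)]
  simp

lemma gd_succ (H : Set ℂ) (τ : ℝ) (c : ℕ → ℝ) (k : ℕ) :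
    Gd H τ c (k + 1) = Gd H τ c k ∪ HS (((k + 1 : ℕ) : ℝ) * τ) (c (k + 1)) := by
  unfold Gd
  ext z
  simp only [mem_union, mem_iUnion, exists_prop, Finset.mem_Icc]
  constructor
  · rintro (h | ⟨j, ⟨h1, h2⟩, h3⟩)
    · exact Or.inl (Or.inl h)
    · by_cases hj : j = k + 1
      · subst hj
        exact Or.inr h3
      · exact Or.inl (Or.inr ⟨j, ⟨h1, by omega⟩, h3⟩)
  · rintro ((h | ⟨j, ⟨h1, h2⟩, h3⟩) | h)
    · exact Or.inl h
    · exact Or.inr ⟨j, ⟨h1, by omega⟩, h3⟩
    · exact Or.inr ⟨k + 1, ⟨by omega, le_refl _⟩, h⟩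

lemma gd_congr (H : Set ℂ) (τ : ℝ) (c c' : ℕ → ℝ) (k : ℕ) (h : ∀ j ≤ k, c j = c' j) :
    Gd H τ c k = Gd H τ c' k := by
  induction k with
  | zero => rw [gd_zero, gd_zero]
  | succ k ih => rw [gd_succ, gd_succ, ih (fun j hj => h j (by omega)), h (k + 1) le_rfl]

/-- the elementary properties of the discrete domains -/
lemma gd_props {H : Set ℂ} {c0 M τ : ℝ} {c : ℕ → ℝ} (hH : HB H c0 M) (hτ : 0 < τ)
    (h0 : c 0 = c0) (hc : Antitone c) (k : ℕ) :
    LD (Gd H τ c k) ∧ (∀ z ∈ Gd H τ c k, z.re < (k : ℝ) * τ ∧ |z.im| < max M c0) ∧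
      HS ((k : ℝ) * τ) (c k) ⊆ Gd H τ c k := by
  induction k with
  | zero =>
    rw [gd_zero]
    refine ⟨hH.1, ?_, ?_⟩
    · intro z hz
      have := hH.2.1 z hz
      refine ⟨?_, lt_of_lt_of_le this.2 (le_max_left _ _)⟩
      simpa using this.1
    · rw [h0]
      simpa using hH.2.2.2.1
  | succ k ih =>
    rw [gd_succ]
    refine ⟨ld_union ih.1 (ld_HS _ _), ?_, fun z hz => Or.inr hz⟩
    rintro z (hz | hz)
    · have h1 := ih.2.1 z hz
      refine ⟨lt_of_lt_of_le h1.1 ?_, h1.2⟩
      push_cast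
      nlinarith
    · refine ⟨hz.1, lt_of_lt_of_le hz.2 ?_⟩
      rw [← h0]
      exact (hc (Nat.zero_le _)).trans (le_max_right _ _)

/-- the doubled domain of a set with a narrow opening -/
lemma wd_open {G : Set ℂ} {t' t d : ℝ} (hG : ∀ z ∈ G, z.re < t') (htt : t' < t) :
    ∀ z ∈ Wd (G ∪ HS t d) t, z.re = t → |z.im| < d := by
  rintro z hz hre
  rcases hz with (hz | hz) | hz
  · exact absurd hz.1 (by rw [hre]; exact lt_irrefl _)
  · exact absurd hz.1 (by rw [hre]; exact lt_irrefl _)
  · obtain ⟨y, hy, hsub⟩ := hz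
    by_contra hcon
    rw [not_lt] at hcon
    have hw : (⟨(t' + t) / 2, |z.im|⟩ : ℂ) ∈ HS t y := by
      refine ⟨?_, ?_⟩
      · show (t' + t) / 2 < t
        linarith
      · show |(|z.im|)| < y
        rw [abs_abs]
        exact hy
    rcases hsub hw with h | h
    · have h1 : (t' + t) / 2 < t' := hG _ h
      linarith
    · have h1 : |(|z.im|)| < d := h.2
      rw [abs_abs] at h1
      linarith

lemma qf_pos {q0 k1 k2 t : ℝ} (hq : 0 < q0) : 0 < Qf q0 k1 k2 t := by
  unfold Qf
  positivity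

lemma qf_zero {q0 k1 k2 : ℝ} : Qf q0 k1 k2 0 = q0 := by
  unfold Qf
  simp

theorem gr (hFK : S_FK) (hLO : S_LO) (hCO : S_CO) (hWD : S_WD) (_hQB : S_QB) : S_GR := by
  intro H c0 M q0 k1 k2 b τ n hH hq hqn hk1 hk2 hτ hnb hb1 hb2 hQ2 hstart hnum
  have hM0 : 0 < c0 := hH.2.2.1
  set δ : ℝ := 1 / (8 * q0) with hδ
  have hδ0 : 0 < δ := by positivity
  -- `δ ≤ c0`
  have hδc0 : δ ≤ c0 := by
    have hwd := hWD H 0 c0 M hH.1 hM0 hH.2.2.2.1 (fun z hz => (hH.2.1 z hz).2)
    have h0 : (0 : ℂ) ∈ Wd H 0 := hwd.2.1 0 (by simpa using hM0)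
    have h1 := hLO (Wd H 0) 0 c0 hwd.1 (by simpa using h0) h0 le_rfl hM0 hH.2.2.2.2
    rw [Complex.ofReal_zero, hqn, add_zero] at h1
    rw [div_le_iff₀ (by positivity)] at h1
    rw [hδ, div_le_iff₀ (by positivity)]
    nlinarith
  -- the induction
  have key : ∀ k : ℕ, k ≤ n → ∃ c : ℕ → ℝ, c 0 = c0 ∧ Antitone c ∧ (∀ j, δ ≤ c j) ∧
      ∀ j : ℕ, 1 ≤ j → j ≤ k →
        qn (Wd (Gd H τ c j) ((j : ℝ) * τ)) (((j : ℝ) * τ : ℝ) : ℂ) 0 = Qf q0 k1 k2 ((j : ℝ) * τ) := by
    intro k
    induction k with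
    | zero =>
      intro _
      exact ⟨fun _ => c0, rfl, fun _ _ _ => le_refl _, fun _ => hδc0, fun j h1 h2 => by omega⟩
    | succ k ih =>
      intro hk
      obtain ⟨c, hc0, hanti, hδc, hval⟩ := ih (by omega)
      obtain ⟨hLD, hbd, hsub⟩ := gd_props hH hτ hc0 hanti k
      set t : ℝ := ((k + 1 : ℕ) : ℝ) * τ with ht
      have htk : t = (k : ℝ) * τ + τ := by rw [ht]; push_cast; ring
      have hkτ : 0 ≤ (k : ℝ) * τ := by positivity
      have ht0 : 0 < t := by rw [htk]; linarith
      have htb : t ≤ b := by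
        refine le_trans ?_ hnb
        rw [ht]
        have : ((k + 1 : ℕ) : ℝ) ≤ n := by exact_mod_cast hk
        exact mul_le_mul_of_nonneg_right this hτ.le
      have hcont := hCO (Gd H τ c k) ((k : ℝ) * τ) t (c k) (max M c0) hLD hbd (by linarith)
        ht0.le (lt_of_lt_of_le hδ0 (hδc k)) hsub
      have hcont' : ContinuousOn (fun x : ℝ => qn (Wd (Gd H τ c k ∪ HS t x) t) t 0)
          (Icc δ (c k)) :=
        hcont.mono fun x hx => ⟨lt_of_lt_of_le hδ0 hx.1, hx.2⟩
      -- the value at `δ`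
      have hlow : Qf q0 k1 k2 t ≤ qn (Wd (Gd H τ c k ∪ HS t δ) t) t 0 := by
        have hwd := hWD (Gd H τ c k ∪ HS t δ) t δ (max M c0) (ld_union hLD (ld_HS _ _)) hδ0
          (fun z hz => Or.inr hz) (by
            rintro z (hz | hz)
            · exact (hbd z hz).2
            · exact lt_of_lt_of_le hz.2 (hδc0.trans (le_max_right _ _)))
        have h1 := hLO (Wd (Gd H τ c k ∪ HS t δ) t) t δ hwd.1
          (hwd.2.1 _ (by rw [Complex.ofReal_im, abs_zero]; exact hδ0))
          (hwd.2.1 _ (by rw [Complex.zero_im, abs_zero]; exact hδ0)) ht0.le hδ0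
          (wd_open (fun z hz => (hbd z hz).1) (by linarith))
        refine le_trans ?_ h1
        refine le_trans (hQ2 t ht0.le htb) ?_
        rw [le_div_iff₀ (by positivity)]
        have h3 : t ≤ 1 / (4 * q0) := htb.trans hb2
        have h4 : 2 * q0 * (2 * δ + t) ≤ 2 * q0 * (2 * δ + 1 / (4 * q0)) := by
          apply mul_le_mul_of_nonneg_left _ (by positivity)
          linarith
        refine h4.trans (le_of_eq ?_)
        rw [hδ]
        field_simp
        norm_num
      -- the value at `c k`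
      have hup : qn (Wd (Gd H τ c k ∪ HS t (c k)) t) t 0 ≤ Qf q0 k1 k2 t := by
        rcases Nat.eq_zero_or_pos k with hk0 | hk0
        · subst hk0
          have htτ : t = τ := by rw [htk]; simp
          rw [gd_zero, hc0, htτ]
          refine hstart.trans ?_
          unfold Qf
          apply mul_le_mul_of_nonneg_left _ hq.le
          apply Real.exp_le_exp.2
          nlinarith [mul_nonneg hk2 (sq_nonneg τ)]
        · obtain ⟨m, rfl⟩ : ∃ m, k = m + 1 := ⟨k - 1, by omega⟩
          obtain ⟨hLD', hbd', hsub'⟩ := gd_props hH hτ hc0 hanti m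
          set s : ℝ := ((m + 1 : ℕ) : ℝ) * τ with hs
          have hsm : s = (m : ℝ) * τ + τ := by rw [hs]; push_cast; ring
          have hsτ : s - τ = (m : ℝ) * τ := by rw [hsm]; ring
          have hmτ : 0 ≤ (m : ℝ) * τ := by positivity
          have hts : t = s + τ := by rw [htk]
          have h1 := hFK (Gd H τ c m) s τ (c (m + 1)) δ (max M c0) hLD'
            (by rw [hsτ]; exact hbd') hτ (by linarith) hδ0 (hδc _)
            (by
              rw [hsτ]
              intro z hz
              exact hsub' ⟨hz.1, lt_of_lt_of_le hz.2 (hanti (Nat.le_succ m))⟩)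
            (by linarith) (by linarith)
          have hgs : Gd H τ c (m + 1) = Gd H τ c m ∪ HS s (c (m + 1)) := gd_succ H τ c m
          rw [← hgs, ← hts] at h1
          have h2 : qn (Wd (Gd H τ c (m + 1)) s) s 0 = Qf q0 k1 k2 s :=
            hval (m + 1) (by omega) le_rfl
          have h3 : qn (Wd (Gd H τ c m) (s - τ)) ((s - τ : ℝ) : ℂ) 0 = Qf q0 k1 k2 (s - τ) := by
            rcases Nat.eq_zero_or_pos m with hm0 | hm0
            · subst hm0
              have : s - τ = 0 := by rw [hsτ]; simp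
              rw [this, gd_zero, Complex.ofReal_zero, hqn, qf_zero]
            · rw [hsτ]
              exact hval m hm0 (by omega)
          rw [h2, h3] at h1
          have h4 := hnum s τ hτ (by linarith) (by linarith)
          have h5 := h1.trans h4
          rw [← hts] at h5
          exact le_of_mul_le_mul_right h5 (qf_pos hq)
      -- the intermediate value theorem
      obtain ⟨x, hx, hxv⟩ := intermediate_value_Icc' (hδc k) hcont' ⟨hup, hlow⟩
      refine ⟨fun j => if j ≤ k then c j else x, ?_, ?_, ?_, ?_⟩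
      · show (if 0 ≤ k then c 0 else x) = c0
        rw [if_pos (Nat.zero_le _), hc0]
      · intro i j hij
        show (if j ≤ k then c j else x) ≤ (if i ≤ k then c i else x)
        by_cases hj : j ≤ k
        · rw [if_pos hj, if_pos (hij.trans hj)]
          exact hanti hij
        · rw [if_neg hj]
          by_cases hi : i ≤ k
          · rw [if_pos hi]
            exact hx.2.trans (hanti hi)
          · rw [if_neg hi]
      · intro j
        show δ ≤ (if j ≤ k then c j else x)
        by_cases hj : j ≤ k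
        · rw [if_pos hj]
          exact hδc j
        · rw [if_neg hj]
          exact hx.1
      · intro j hj1 hj2
        by_cases hj : j ≤ k
        · rw [gd_congr H τ (fun j => if j ≤ k then c j else x) c j (fun i hi => by
            show (if i ≤ k then c i else x) = c i
            rw [if_pos (hi.trans hj)])]
          exact hval j hj1 hj
        · obtain rfl : j = k + 1 := by omega
          rw [gd_succ, gd_congr H τ (fun j => if j ≤ k then c j else x) c k (fun i hi => by
            show (if i ≤ k then c i else x) = c i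
            rw [if_pos hi])]
          have hxk : (if k + 1 ≤ k then c (k + 1) else x) = x := if_neg (by omega)
          show qn (Wd (Gd H τ c k ∪ HS (((k + 1 : ℕ) : ℝ) * τ)
            (if k + 1 ≤ k then c (k + 1) else x)) (((k + 1 : ℕ) : ℝ) * τ))
            ((((k + 1 : ℕ) : ℝ) * τ : ℝ) : ℂ) 0 = Qf q0 k1 k2 (((k + 1 : ℕ) : ℝ) * τ)
          rw [hxk, ← ht]
          exact hxv
  obtain ⟨c, h1, h2, h3, h4⟩ := key n le_rfl
  exact ⟨c, h1, h2, h3, h4⟩

end Pool.Agent.Q238.HM
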