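import Pool.Agent.Q75.HM.Stm

/-!
# Project HM, job K2: kernel convergence, second half
-/

set_option autoImplicit false

namespace Pool.Agent.Q238.HM

open Complex Set Metric Filter Topology

open scoped Real ComplexConjugate

open Pool.Agent.Q75.HM

/-- the map of the strip `|Im z| < M` onto the disc -/
noncomputable def EE (a : ℝ) (z : ℂ) : ℂ :=
  (Complex.exp ((a : ℂ) * z) - 1) / (Complex.exp ((a : ℂ) * z) + 1)

/-- its inverse -/
noncomputable def LE (a : ℝ) (w : ℂ) : ℂ := ((a : ℂ))⁻¹ * Complex.log ((1 + w) / (1 - w))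

lemma re_exp_pos {a : ℝ} {z : ℂ} (h : |a * z.im| < π / 2) :
    0 < (Complex.exp ((a : ℂ) * z)).re := by
  rw [Complex.exp_re, Complex.im_ofReal_mul]
  have h1 := abs_lt.1 h
  exact mul_pos (Real.exp_pos _) (Real.cos_pos_of_mem_Ioo ⟨h1.1, h1.2⟩)

lemma norm_lt_of_re_pos {u : ℂ} (hu : 0 < u.re) : ‖(u - 1) / (u + 1)‖ < 1 := by
  have h0 : u + 1 ≠ 0 := by
    intro h
    have := congrArg Complex.re h
    simp only [Complex.add_re, Complex.one_re, Complex.zero_re] at this
    linarith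
  rw [norm_div, div_lt_one (norm_pos_iff.2 h0)]
  apply lt_of_pow_lt_pow_left₀ 2 (norm_nonneg _)
  rw [← Complex.normSq_eq_norm_sq, ← Complex.normSq_eq_norm_sq, Complex.normSq_apply,
    Complex.normSq_apply]
  simp only [Complex.add_re, Complex.one_re, Complex.sub_re, Complex.add_im, Complex.one_im,
    Complex.sub_im]
  nlinarith

lemma EE_lt {a : ℝ} {z : ℂ} (h : |a * z.im| < π / 2) : ‖EE a z‖ < 1 :=
  norm_lt_of_re_pos (re_exp_pos h)

lemma exp_add_ne {a : ℝ} {z : ℂ} (h : |a * z.im| < π / 2) :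
    Complex.exp ((a : ℂ) * z) + 1 ≠ 0 := by
  intro h1
  have := congrArg Complex.re h1
  simp only [Complex.add_re, Complex.one_re, Complex.zero_re] at this
  have := re_exp_pos h
  linarith

lemma EE_diff {a : ℝ} {z : ℂ} (h : |a * z.im| < π / 2) : DifferentiableAt ℂ (EE a) z := by
  unfold EE
  have h1 : DifferentiableAt ℂ (fun z : ℂ => Complex.exp ((a : ℂ) * z)) z :=
    ((differentiableAt_const _).mul differentiableAt_id).cexp
  exact (h1.sub (differentiableAt_const _)).div (h1.add (differentiableAt_const _)) (exp_add_ne h)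

lemma LE_EE {a : ℝ} (ha : 0 < a) {z : ℂ} (h : |a * z.im| < π / 2) : LE a (EE a z) = z := by
  have h0 := exp_add_ne h
  have h1 : (1 + EE a z) / (1 - EE a z) = Complex.exp ((a : ℂ) * z) := by
    unfold EE
    field_simp
    ring_nf
  have h2 := abs_lt.1 h
  have hpi := Real.pi_pos
  have ha' : (a : ℂ) ≠ 0 := by exact_mod_cast ha.ne'
  unfold LE
  rw [h1, Complex.log_exp (by rw [Complex.im_ofReal_mul]; linarith)
    (by rw [Complex.im_ofReal_mul]; linarith), inv_mul_cancel_left₀ ha']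

lemma re_pos_of_lt {w : ℂ} (hw : ‖w‖ < 1) : 0 < ((1 + w) / (1 - w)).re := by
  have h0 : 1 - w ≠ 0 := by
    intro h
    have h1 : w = 1 := (sub_eq_zero.1 h).symm
    rw [h1, norm_one] at hw
    exact lt_irrefl _ hw
  have hn : 0 < Complex.normSq (1 - w) := Complex.normSq_pos.2 h0
  have hw2 : w.re * w.re + w.im * w.im < 1 := by
    rw [← Complex.normSq_apply, Complex.normSq_eq_norm_sq]
    exact (sq_lt_one_iff₀ (norm_nonneg _)).2 hw
  rw [Complex.div_re, ← add_div]
  apply div_pos _ hn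
  simp only [Complex.add_re, Complex.one_re, Complex.sub_re, Complex.add_im, Complex.one_im,
    Complex.sub_im]
  nlinarith

lemma LE_im {a : ℝ} (ha : 0 < a) {w : ℂ} (hw : ‖w‖ < 1) : |a * (LE a w).im| < π / 2 := by
  have h1 := re_pos_of_lt hw
  have h2 : |((1 + w) / (1 - w)).arg| < π / 2 :=
    Complex.abs_arg_lt_pi_div_two_iff.2 (Or.inl h1)
  have ha' : (a : ℂ) ≠ 0 := by exact_mod_cast ha.ne'
  have h3 : a * (LE a w).im = ((1 + w) / (1 - w)).arg := by
    rw [← Complex.im_ofReal_mul]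
    unfold LE
    rw [mul_inv_cancel_left₀ ha', Complex.log_im]
  rw [h3]
  exact h2

lemma LE_diff {a : ℝ} {w : ℂ} (hw : ‖w‖ < 1) : DifferentiableAt ℂ (LE a) w := by
  have h0 : 1 - w ≠ 0 := by
    intro h
    have h1 : w = 1 := (sub_eq_zero.1 h).symm
    rw [h1, norm_one] at hw
    exact lt_irrefl _ hw
  unfold LE
  refine (differentiableAt_const _).mul (DifferentiableAt.clog ?_ (Or.inl (re_pos_of_lt hw)))
  exact ((differentiableAt_const _).add differentiableAt_id).div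
    ((differentiableAt_const _).sub differentiableAt_id) h0

lemma EE_LE {a : ℝ} (ha : 0 < a) {w : ℂ} (hw : ‖w‖ < 1) : EE a (LE a w) = w := by
  have h0 : 1 - w ≠ 0 := by
    intro h
    have h1 : w = 1 := (sub_eq_zero.1 h).symm
    rw [h1, norm_one] at hw
    exact lt_irrefl _ hw
  have ha' : (a : ℂ) ≠ 0 := by exact_mod_cast ha.ne'
  have hv : (1 + w) / (1 - w) ≠ 0 := by
    intro h
    have := re_pos_of_lt hw
    rw [h] at this
    exact lt_irrefl _ this
  unfold EE LE
  rw [mul_inv_cancel_left₀ ha', Complex.exp_log hv]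
  have h2 : (1 + w) / (1 - w) + 1 = 2 / (1 - w) := by
    field_simp
    ring
  have h3 : (1 + w) / (1 - w) - 1 = 2 * w / (1 - w) := by
    field_simp
    ring
  rw [h2, h3]
  field_simp

theorem k2 (hQB : S_QB) (hUL : S_UL) : S_K2 := by
  intro 𝒰 W p Ω p0 M hW hΩ hp0 hp0Ω h0Ω hpt hker ε hε
  by_contra hcon
  have hev : ∀ᶠ n in (𝒰 : Filter ℕ), ¬ qn Ω p0 0 ≤ qn (W n) (p n) 0 + ε :=
    Ultrafilter.eventually_not.2 hcon
  -- the strip
  have hM : 0 < M := by
    have h1 := (hW 0).2.2.2.2 0 (hW 0).2.2.1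
    rw [Complex.zero_im, abs_zero] at h1
    exact h1
  have hpi := Real.pi_pos
  set a : ℝ := π / (2 * M) with ha
  have ha0 : 0 < a := by positivity
  have hstrip : ∀ z : ℂ, |z.im| < M → |a * z.im| < π / 2 := by
    intro z hz
    rw [abs_mul, abs_of_pos ha0]
    calc a * |z.im| < a * M := mul_lt_mul_of_pos_left hz ha0
      _ = π / 2 := by
        rw [ha]
        field_simp
  have hstrip' : ∀ z : ℂ, |a * z.im| < π / 2 → |z.im| < M := by
    intro z hz
    rw [abs_mul, abs_of_pos ha0] at hz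
    have h1 : a * M = π / 2 := by
      rw [ha]
      field_simp
    rw [← h1] at hz
    exact lt_of_mul_lt_mul_left hz ha0.le
  -- the inverse Riemann maps
  have hex : ∀ n, ∃ g φ : ℂ → ℂ, DifferentiableOn ℂ g (ball 0 1) ∧ BijOn g (ball 0 1) (W n) ∧
      (∀ z ∈ ball (0 : ℂ) 1, deriv g z ≠ 0) ∧ g 0 = p n ∧
      DifferentiableOn ℂ φ (W n) ∧ MapsTo φ (W n) (ball 0 1) ∧ (∀ z ∈ W n, g (φ z) = z) ∧
      (∀ z ∈ ball (0 : ℂ) 1, φ (g z) = z) := fun n =>
    Pool.Agent.Helper405.Riemann.riemann_inv (hW n).1.1 (hW n).1.2.1 (hW n).1.2.2 (hW n).2.1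
  choose ψ φ hψd hψb _ hψ0 hφd hφm hψφ hφψ using hex
  have h0b : (0 : ℂ) ∈ ball (0 : ℂ) 1 := mem_ball_self one_pos
  have hφp : ∀ n, φ n (p n) = 0 := by
    intro n
    rw [← hψ0 n]
    exact hφψ n 0 h0b
  -- the points `ζ n`
  set ζ : ℕ → ℂ := fun n => φ n 0 with hζ
  have hζb : ∀ n, ζ n ∈ ball (0 : ℂ) 1 := fun n => hφm n (hW n).2.2.1
  have hζψ : ∀ n, ψ n (ζ n) = 0 := fun n => hψφ n 0 (hW n).2.2.1
  have hζn : ∀ n, ‖ζ n‖ ≤ p n * qn (W n) (p n) 0 := by
    intro n
    have h1 := (hQB (W n) (p n) 0 (hW n).1 (hW n).2.1 (hW n).2.2.1).2.2.2.1 (φ n) (hφd n)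
      (hφm n) (hφp n)
    have hp : (0 : ℂ) ≠ (p n : ℂ) := by
      have := (hW n).2.2.2.1
      exact_mod_cast this.ne
    rw [dslope_of_ne _ hp, slope_def_field, hφp n, sub_zero, zero_sub, norm_div, norm_neg,
      Complex.norm_real, Real.norm_of_nonneg (hW n).2.2.2.1.le,
      div_le_iff₀ (hW n).2.2.2.1] at h1
    rw [mul_comm]
    exact h1
  -- the limit of `ζ n`
  obtain ⟨ζ0, hζ0m, hζ0⟩ : ∃ x ∈ closedBall (0 : ℂ) 1, Tendsto ζ (𝒰 : Filter ℕ) (𝓝 x) := by
    have h1 : (𝒰.map ζ : Filter ℂ) ≤ 𝓟 (closedBall (0 : ℂ) 1) := by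
      rw [le_principal_iff]
      exact Filter.mem_map.2 (Filter.univ_mem' fun n => ball_subset_closedBall (hζb n))
    obtain ⟨x, hx1, hx2⟩ := (isCompact_closedBall (0 : ℂ) 1).ultrafilter_le_nhds (𝒰.map ζ) h1
    exact ⟨x, hx1, hx2⟩
  have hζ0n : ‖ζ0‖ ≤ p0 * (qn Ω p0 0 - ε) := by
    refine le_of_tendsto_of_tendsto hζ0.norm (hpt.mul_const (qn Ω p0 0 - ε)) ?_
    filter_upwards [hev] with n hn
    refine (hζn n).trans ?_
    exact mul_le_mul_of_nonneg_left (by linarith [not_le.1 hn]) (hW n).2.2.2.1.le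
  have hQΩ := hQB Ω p0 0 hΩ hp0Ω h0Ω
  have hζ01 : ‖ζ0‖ < 1 := by
    have h1 := hQΩ.2.2.2.2
    rw [zero_sub, norm_neg, Complex.norm_real, Real.norm_of_nonneg hp0.le] at h1
    nlinarith [mul_pos hp0 hε]
  have hζ0b : ζ0 ∈ ball (0 : ℂ) 1 := mem_ball_zero_iff.2 hζ01
  -- the limit of `EE ∘ ψ n`
  have hψW : ∀ n, ∀ w ∈ ball (0 : ℂ) 1, ψ n w ∈ W n := fun n w hw => (hψb n).mapsTo hw
  have hψim : ∀ n, ∀ w ∈ ball (0 : ℂ) 1, |a * (ψ n w).im| < π / 2 := fun n w hw =>
    hstrip _ ((hW n).2.2.2.2 _ (hψW n w hw))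
  set F : ℕ → ℂ → ℂ := fun n w => EE a (ψ n w) with hF
  have hFd : ∀ n, DifferentiableOn ℂ (F n) (ball 0 1) := by
    intro n w hw
    have h1 := (hψd n).differentiableAt (isOpen_ball.mem_nhds hw)
    exact (DifferentiableAt.comp w (EE_diff (hψim n w hw)) h1).differentiableWithinAt
  have hF1 : ∀ n, ∀ w ∈ ball (0 : ℂ) 1, ‖F n w‖ < 1 := fun n w hw => EE_lt (hψim n w hw)
  obtain ⟨f, hfd, hfu⟩ := hUL 𝒰 (ball 0 1) F isOpen_ball (by
    intro z hz
    obtain ⟨r, hr, hrb⟩ := Metric.isOpen_iff.1 isOpen_ball z hz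
    exact ⟨r, hr, Eventually.of_forall fun n =>
      ⟨(hFd n).mono hrb, fun w hw => (hF1 n w (hrb hw)).le⟩⟩)
  have hft : ∀ w ∈ ball (0 : ℂ) 1, Tendsto (fun n => F n w) (𝒰 : Filter ℕ) (𝓝 (f w)) := by
    intro w hw
    obtain ⟨r, hr, hu⟩ := hfu w hw
    exact hu.tendsto_at (mem_ball_self hr)
  have hf1 : ∀ w ∈ ball (0 : ℂ) 1, ‖f w‖ ≤ 1 := fun w hw =>
    le_of_tendsto (hft w hw).norm (Eventually.of_forall fun n => (hF1 n w hw).le)
  have hp0im : |a * ((p0 : ℝ) : ℂ).im| < π / 2 := by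
    rw [Complex.ofReal_im, mul_zero, abs_zero]
    positivity
  have h0im : |a * (0 : ℂ).im| < π / 2 := by
    rw [Complex.zero_im, mul_zero, abs_zero]
    positivity
  have hf0 : f 0 = EE a p0 := by
    have h1 : Tendsto (fun n => F n 0) (𝒰 : Filter ℕ) (𝓝 (EE a p0)) := by
      have h2 : Tendsto (fun n => ((p n : ℝ) : ℂ)) (𝒰 : Filter ℕ) (𝓝 ((p0 : ℝ) : ℂ)) :=
        (Complex.continuous_ofReal.tendsto _).comp hpt
      have h3 := ((EE_diff hp0im).continuousAt.tendsto).comp h2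
      refine h3.congr fun n => ?_
      show EE a (p n) = EE a (ψ n 0)
      rw [hψ0 n]
    exact tendsto_nhds_unique (hft 0 h0b) h1
  have hEE0 : EE a 0 = 0 := by
    unfold EE
    rw [mul_zero, Complex.exp_zero, sub_self, zero_div]
  have hfζ : f ζ0 = 0 := by
    obtain ⟨r, hr, hu⟩ := hfu ζ0 hζ0b
    have hcont : ContinuousAt f ζ0 :=
      (hfd.differentiableAt (isOpen_ball.mem_nhds hζ0b)).continuousAt
    have h1 : Tendsto (fun n => f (ζ n)) (𝒰 : Filter ℕ) (𝓝 (f ζ0)) := hcont.tendsto.comp hζ0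
    have h2 : Tendsto (fun n => f (ζ n)) (𝒰 : Filter ℕ) (𝓝 0) := by
      rw [Metric.tendsto_nhds]
      intro δ hδ
      filter_upwards [(Metric.tendstoUniformlyOn_iff.1 hu) δ hδ,
        hζ0.eventually (ball_mem_nhds ζ0 hr)] with n hn hn'
      have h3 := hn (ζ n) hn'
      have h4 : F n (ζ n) = 0 := by
        show EE a (ψ n (ζ n)) = 0
        rw [hζψ n, hEE0]
      rw [h4] at h3
      exact h3
    exact tendsto_nhds_unique h1 h2
  have hEp : EE a p0 ≠ 0 := by
    intro h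
    have h1 := LE_EE ha0 hp0im
    have h2 := LE_EE ha0 h0im
    rw [h] at h1
    rw [hEE0] at h2
    rw [h2] at h1
    have h3 : (p0 : ℂ) = 0 := h1.symm
    exact hp0.ne' (by exact_mod_cast h3)
  have hpre : IsPreconnected (ball (0 : ℂ) 1) := (convex_ball 0 1).isPreconnected
  -- the strict inequality
  have hf1' : ∀ w ∈ ball (0 : ℂ) 1, ‖f w‖ < 1 := by
    intro w hw
    refine lt_of_le_of_ne (hf1 w hw) fun h => ?_
    have hmax : IsMaxOn (norm ∘ f) (ball (0 : ℂ) 1) w := by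
      intro z hz
      show ‖f z‖ ≤ ‖f w‖
      rw [h]
      exact hf1 z hz
    have h1 := Complex.norm_eqOn_of_isPreconnected_of_isMaxOn hpre isOpen_ball hfd hw hmax h0b
    have h2 : ‖f 0‖ = ‖f w‖ := h1
    rw [h, hf0] at h2
    exact absurd h2 (EE_lt hp0im).ne
  have hfan : AnalyticOnNhd ℂ f (ball 0 1) := hfd.analyticOnNhd isOpen_ball
  -- the values of the limit
  have hval : ∀ w ∈ ball (0 : ℂ) 1, LE a (f w) ∈ Ω := by
    intro w hw
    -- `f` is not constant near `w`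
    have hne : ∀ᶠ z in 𝓝[≠] w, f z ≠ f w := by
      rcases (hfan w hw).eventually_eq_or_eventually_ne (analyticAt_const (v := f w)) with h | h
      · exfalso
        have h1 := hfan.eqOn_of_preconnected_of_eventuallyEq
          (analyticOnNhd_const (v := f w)) hpre hw h
        have h2 : f 0 = f w := h1 h0b
        have h3 : f ζ0 = f w := h1 hζ0b
        rw [hf0] at h2
        rw [hfζ] at h3
        exact hEp (h2.trans h3.symm)
      · exact h
    rw [eventually_nhdsWithin_iff, Metric.eventually_nhds_iff_ball] at hne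
    obtain ⟨r1, hr1, h1⟩ := hne
    obtain ⟨r2, hr2, h2⟩ := Metric.isOpen_iff.1 isOpen_ball w hw
    obtain ⟨r3, hr3, h3⟩ := hfu w hw
    set r : ℝ := min r1 (min r2 r3) / 2 with hr
    have hmin : 0 < min r1 (min r2 r3) := lt_min hr1 (lt_min hr2 hr3)
    have hr0 : 0 < r := by positivity
    have hrlt : r < min r1 (min r2 r3) := by linarith
    have hrr1 : r < r1 := lt_of_lt_of_le hrlt (min_le_left _ _)
    have hrr2 : r < r2 := lt_of_lt_of_le hrlt ((min_le_right _ _).trans (min_le_left _ _))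
    have hrr3 : r < r3 := lt_of_lt_of_le hrlt ((min_le_right _ _).trans (min_le_right _ _))
    have hcb2 : closedBall w r ⊆ ball 0 1 := (closedBall_subset_ball hrr2).trans h2
    have hcb3 : closedBall w r ⊆ ball w r3 := closedBall_subset_ball hrr3
    have hcont : ContinuousOn (fun z => ‖f z - f w‖) (sphere w r) :=
      ((hfd.continuousOn.mono (sphere_subset_closedBall.trans hcb2)).sub
        continuousOn_const).norm
    obtain ⟨z1, hz1, hz1min⟩ := (isCompact_sphere w r).exists_isMinOn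
      (NormedSpace.sphere_nonempty.2 hr0.le) hcont
    set m : ℝ := ‖f z1 - f w‖ with hm
    have hm0 : 0 < m := by
      rw [hm, norm_pos_iff, sub_ne_zero]
      have hd : dist z1 w = r := hz1
      apply h1 z1
      · rw [mem_ball, hd]
        exact hrr1
      · intro h4
        have h5 : z1 = w := h4
        rw [h5, dist_self] at hd
        linarith
    have hevn := (Metric.tendstoUniformlyOn_iff.1 h3) (m / 8) (by positivity)
    -- the radius
    have hwim := LE_im ha0 (hf1' w hw)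
    have hcE : ContinuousAt (EE a) (LE a (f w)) := (EE_diff hwim).continuousAt
    have hE1 : ∀ᶠ z in 𝓝 (LE a (f w)), EE a z ∈ ball (f w) (m / 8) := by
      apply hcE.eventually
      rw [EE_LE ha0 (hf1' w hw)]
      exact ball_mem_nhds _ (by positivity)
    have hE2 : ∀ᶠ z in 𝓝 (LE a (f w)), |a * z.im| < π / 2 := by
      have hc : ContinuousAt (fun z : ℂ => |a * z.im|) (LE a (f w)) :=
        (continuous_abs.comp (continuous_const.mul Complex.continuous_im)).continuousAt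
      exact hc.eventually (gt_mem_nhds hwim)
    obtain ⟨ρ, hρ, hρb⟩ := Metric.eventually_nhds_iff_ball.1 (hE1.and hE2)
    refine hker _ ρ hρ ?_
    filter_upwards [hevn] with n hn z hz
    obtain ⟨hz1', hz2'⟩ := hρb z hz
    have hdw : dist (f w) (F n w) < m / 8 := hn w (mem_ball_self hr3)
    have hopen : ball (F n w) (m / 2 / 2) ⊆ F n '' closedBall w r := by
      apply DiffContOnCl.ball_subset_image_closedBall _ hr0
      · intro y hy
        have h4 := hn y (hcb3 (sphere_subset_closedBall hy))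
        have h5 : m ≤ ‖f y - f w‖ := hz1min hy
        rw [dist_eq_norm] at h4 hdw
        have h6 : ‖f y - f w‖ ≤ ‖f y - F n y‖ + ‖F n y - F n w‖ + ‖F n w - f w‖ := by
          have : f y - f w = (f y - F n y) + (F n y - F n w) + (F n w - f w) := by ring
          rw [this]
          exact norm_add₃_le
        rw [norm_sub_rev (F n w) (f w)] at h6
        linarith
      · have hne' : ∀ᶠ y in 𝓝[≠] w, F n y ≠ F n w := by
          have hb : ∀ᶠ y in 𝓝[≠] w, y ∈ ball (0 : ℂ) 1 :=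
            nhdsWithin_le_nhds (isOpen_ball.mem_nhds hw)
          filter_upwards [hb, self_mem_nhdsWithin] with y hy hyw h4
          have h5 : ψ n y = ψ n w := by
            have e1 := LE_EE ha0 (hψim n y hy)
            have e2 := LE_EE ha0 (hψim n w hw)
            have h4' : EE a (ψ n y) = EE a (ψ n w) := h4
            rw [← e1, ← e2, h4']
          exact hyw ((hψb n).injOn hy hw h5)
        exact hne'.frequently.filter_mono nhdsWithin_le_nhds
      · apply DifferentiableOn.diffContOnCl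
        rw [closure_ball w hr0.ne']
        exact (hFd n).mono hcb2
    have hmem : EE a z ∈ ball (F n w) (m / 2 / 2) := by
      rw [mem_ball] at hz1' ⊢
      have := dist_triangle (EE a z) (f w) (F n w)
      linarith
    obtain ⟨w', hw', hw'2⟩ := hopen hmem
    have hw'b := hcb2 hw'
    have e1 := LE_EE ha0 hz2'
    have e2 := LE_EE ha0 (hψim n w' hw'b)
    have h4' : EE a (ψ n w') = EE a z := hw'2
    rw [h4', e1] at e2
    rw [e2]
    exact hψW n w' hw'b
  -- the contradiction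
  obtain ⟨Φ, hΦ1, hΦ2, hΦ3, hΦ4⟩ := Pool.Agent.Helper405.Riemann.riemann hΩ.1 hΩ.2.1 hΩ.2.2 hp0Ω
  have hqΩ := hQΩ.1 Φ ⟨hΦ1, hΦ2, hΦ3, hΦ4⟩
  have hp0' : (0 : ℂ) ≠ (p0 : ℂ) := by exact_mod_cast hp0.ne
  rw [dslope_of_ne _ hp0', slope_def_field, hΦ4, sub_zero, zero_sub, norm_div, norm_neg,
    Complex.norm_real, Real.norm_of_nonneg hp0.le] at hqΩ
  have hcomp : DifferentiableOn ℂ (fun w => Φ (LE a (f w))) (ball 0 1) := by
    intro w hw
    have k1 : DifferentiableAt ℂ f w := hfd.differentiableAt (isOpen_ball.mem_nhds hw)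
    have k2 : DifferentiableAt ℂ (LE a) (f w) := LE_diff (hf1' w hw)
    have k3 : DifferentiableAt ℂ Φ (LE a (f w)) :=
      hΦ1.differentiableAt (hΩ.1.mem_nhds (hval w hw))
    have k4 : DifferentiableAt ℂ (LE a ∘ f) w := k2.comp w k1
    have k5 : DifferentiableAt ℂ (Φ ∘ (LE a ∘ f)) w := DifferentiableAt.comp w k3 k4
    exact k5.differentiableWithinAt
  have h00 : Φ (LE a (f 0)) = 0 := by
    rw [hf0, LE_EE ha0 hp0im]
    exact hΦ4
  have hsch := Complex.norm_le_norm_of_mapsTo_ball hcomp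
    (fun w hw => ball_subset_closedBall (hΦ2.mapsTo (hval w hw))) h00 hζ01
  have hL0 : LE a (f ζ0) = 0 := by
    rw [hfζ]
    have := LE_EE ha0 h0im
    rwa [hEE0] at this
  rw [hL0] at hsch
  have h9 : ‖Φ 0‖ = p0 * qn Ω p0 0 := by
    rw [hqΩ]
    field_simp
  rw [h9] at hsch
  nlinarith [mul_pos hp0 hε]

end Pool.Agent.Q238.HM
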