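import Pool.Agent.Q75.HM.Stm

/-!
# Project HM, job LA: geometry of the limit of the domains
-/

set_option autoImplicit false

namespace Pool.Agent.Q238.HM

open Complex Set Metric Filter Topology

open scoped Real ComplexConjugate

open Pool.Agent.Q75.HM

lemma mem_ball_of {w z : ℂ} {r : ℝ} (h : |w.re - z.re| + |w.im - z.im| < r) : w ∈ ball z r := by
  rw [mem_ball, dist_eq_norm]
  refine lt_of_le_of_lt (Complex.norm_le_abs_re_add_abs_im _) ?_
  rw [Complex.sub_re, Complex.sub_im]
  exact h

lemma of_mem_ball {w z : ℂ} {r : ℝ} (h : w ∈ ball z r) :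
    |w.re - z.re| < r ∧ |w.im - z.im| < r := by
  rw [mem_ball, dist_eq_norm] at h
  have h1 := Complex.abs_re_le_norm (w - z)
  have h2 := Complex.abs_im_le_norm (w - z)
  rw [Complex.sub_re] at h1
  rw [Complex.sub_im] at h2
  exact ⟨lt_of_le_of_lt h1 h, lt_of_le_of_lt h2 h⟩

lemma exists_im (x a : ℝ) (ha : 0 ≤ a) : ∃ x' : ℝ, |x'| = |x| + a ∧ |x' - x| = a := by
  rcases le_total 0 x with h | h
  · refine ⟨x + a, ?_, ?_⟩
    · rw [abs_of_nonneg (by linarith), abs_of_nonneg h]
    · rw [add_sub_cancel_left, abs_of_nonneg ha]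
  · refine ⟨x - a, ?_, ?_⟩
    · rw [abs_of_nonpos (by linarith), abs_of_nonpos h]
      ring
    · rw [sub_sub_cancel_left, abs_neg, abs_of_nonneg ha]

lemma gh_pos {H : Set ℂ} {c0 M b : ℝ} {f : ℝ → ℝ} (hH : HB H c0 M) {z : ℂ} (h0 : 0 ≤ z.re)
    (hz : z ∈ GH H b f) : ∃ s, 0 < s ∧ s ≤ b ∧ z.re < s ∧ |z.im| < f s := by
  rcases hz with hz | ⟨s, h1, h2, h3⟩
  · exact absurd (hH.2.1 z hz).1 (not_lt.2 h0)
  · exact ⟨s, h1, h2, h3.1, h3.2⟩

lemma gh_neg {H : Set ℂ} {c0 M b : ℝ} {f : ℝ → ℝ} (hH : HB H c0 M)
    (hf : ∀ s ∈ Ioc 0 b, f s ≤ c0) {z : ℂ} (h0 : z.re < 0) (hz : z ∈ GH H b f) : z ∈ H := by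
  rcases hz with hz | ⟨s, h1, h2, h3⟩
  · exact hz
  · exact hH.2.2.2.1 ⟨h0, lt_of_lt_of_le h3.2 (hf s ⟨h1, h2⟩)⟩

theorem la : S_LA := by
  intro H c0 M b δ t g h 𝒰 T hH hb hδ hanti hg hlim ht htb hT hTt hh
  -- properties of the limit
  have hha : ∀ s s' : ℝ, 0 < s → s ≤ s' → s' ≤ b → h s' ≤ h s := by
    intro s s' h0 h1 h2
    exact le_of_tendsto_of_tendsto (hlim s' ⟨by linarith, h2⟩) (hlim s ⟨h0, by linarith⟩)
      (Eventually.of_forall fun N => hanti N ⟨h0, by linarith⟩ ⟨by linarith, h2⟩ h1)
  have htT : ∀ N, t ≤ T N := fun N => (hT N).1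
  -- points to the left of `t`
  have lemA : ∀ z : ℂ, z.re < t → z ∈ GH H b h → ∃ r : ℝ, 0 < r ∧
      ∀ᶠ N in (𝒰 : Filter ℕ), ∀ w ∈ ball z r, w.re < t ∧ w ∈ GH H b (g N) := by
    intro z hzt hz
    rcases hz with hz | ⟨s, hs0, hsb, hz1, hz2⟩
    · obtain ⟨r1, hr1, hr2⟩ := Metric.isOpen_iff.1 hH.1.1 z hz
      refine ⟨min r1 (t - z.re), lt_min hr1 (by linarith), Eventually.of_forall fun N w hw => ?_⟩
      have h1 := of_mem_ball (ball_subset_ball (min_le_right _ _) hw)
      have h2 := (abs_lt.1 h1.1).2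
      exact ⟨by linarith, Or.inl (hr2 (ball_subset_ball (min_le_left _ _) hw))⟩
    · obtain ⟨y, hy1, hy2⟩ := exists_between hz2
      refine ⟨min (t - z.re) (min (s - z.re) (y - |z.im|)),
        lt_min (by linarith) (lt_min (by linarith) (by linarith)), ?_⟩
      filter_upwards [(hlim s ⟨hs0, hsb⟩).eventually (lt_mem_nhds hy2)] with N hN w hw
      have h1 := of_mem_ball (ball_subset_ball (min_le_left _ _) hw)
      have h2 := of_mem_ball (ball_subset_ball ((min_le_right _ _).trans (min_le_left _ _)) hw)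
      have h3 := of_mem_ball (ball_subset_ball ((min_le_right _ _).trans (min_le_right _ _)) hw)
      have h4 := (abs_lt.1 h1.1).2
      have h5 := (abs_lt.1 h2.1).2
      have h6 : |w.im| ≤ |z.im| + |w.im - z.im| := by
        have := abs_add_le z.im (w.im - z.im)
        rwa [add_sub_cancel] at this
      refine ⟨by linarith, Or.inr ⟨s, hs0, hsb, ?_, ?_⟩⟩
      · show w.re < s
        linarith
      · show |w.im| < g N s
        have := h3.2
        linarith
  have lemB : ∀ (z : ℂ) (r : ℝ), z.re < t → 0 < r →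
      (∀ᶠ N in (𝒰 : Filter ℕ), ∀ w ∈ ball z r, w.re < t → w ∈ GH H b (g N)) →
      z ∈ GH H b h := by
    intro z r hzt hr hev
    rcases lt_or_ge z.re 0 with hz0 | hz0
    · set a : ℝ := min (r / 4) (min ((t - z.re) / 2) (-z.re / 2)) with ha
      have ha0 : 0 < a := lt_min (by linarith) (lt_min (by linarith) (by linarith))
      have ha1 : a ≤ r / 4 := min_le_left _ _
      have ha2 : a ≤ (t - z.re) / 2 := (min_le_right _ _).trans (min_le_left _ _)
      have ha3 : a ≤ -z.re / 2 := (min_le_right _ _).trans (min_le_right _ _)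
      obtain ⟨x', hx1, hx2⟩ := exists_im z.im a ha0.le
      obtain ⟨N, hN⟩ := hev.exists
      have hw := hN ⟨z.re + a, x'⟩ (mem_ball_of (by
        show |z.re + a - z.re| + |x' - z.im| < r
        rw [hx2, add_sub_cancel_left, abs_of_pos ha0]
        linarith)) (by
        show z.re + a < t
        linarith)
      have hwH := gh_neg hH (fun s hs => (hg N s hs).2) (by
        show z.re + a < 0
        linarith) hw
      refine Or.inl (hH.1.2 _ hwH z ?_ ?_)
      · show z.re ≤ z.re + a
        linarith
      · show |z.im| ≤ |x'|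
        rw [hx1]
        linarith
    · set a : ℝ := min (r / 4) ((t - z.re) / 2) with ha
      have ha0 : 0 < a := lt_min (by linarith) (by linarith)
      have ha1 : a ≤ r / 4 := min_le_left _ _
      have ha2 : a ≤ (t - z.re) / 2 := min_le_right _ _
      obtain ⟨x', hx1, hx2⟩ := exists_im z.im a ha0.le
      have hs0 : z.re + a / 2 ∈ Ioc 0 b := ⟨by linarith, by linarith⟩
      have hge : |z.im| + a ≤ h (z.re + a / 2) := by
        refine ge_of_tendsto (hlim _ hs0) ?_
        filter_upwards [hev] with N hN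
        have hw := hN ⟨z.re + a, x'⟩ (mem_ball_of (by
          show |z.re + a - z.re| + |x' - z.im| < r
          rw [hx2, add_sub_cancel_left, abs_of_pos ha0]
          linarith)) (by
          show z.re + a < t
          linarith)
        obtain ⟨s, h1, h2, h3, h4⟩ := gh_pos hH (by
          show 0 ≤ z.re + a
          linarith) hw
        have h3' : z.re + a < s := h3
        have h4' : |x'| < g N s := h4
        have h5 := hanti N hs0 ⟨h1, h2⟩ (by linarith : z.re + a / 2 ≤ s)
        rw [hx1] at h4'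
        linarith
      refine Or.inr ⟨z.re + a / 2, hs0.1, hs0.2, ?_, ?_⟩
      · show z.re < z.re + a / 2
        linarith
      · show |z.im| < h (z.re + a / 2)
        linarith
  constructor
  · rintro z ((⟨hz1, hz2⟩ | ⟨hz1, hz2⟩) | ⟨y, hy1, hy2⟩)
    · obtain ⟨r, hr, hev⟩ := lemA z hz1 hz2
      refine ⟨r, hr, ?_⟩
      filter_upwards [hev] with N hN w hw
      exact Or.inl (Or.inl ⟨lt_of_lt_of_le (hN w hw).1 (htT N), (hN w hw).2⟩)
    · have hre : (rf t z).re = 2 * t - z.re := rfl
      have him : (rf t z).im = z.im := rfl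
      obtain ⟨r, hr, hev⟩ := lemA (rf t z) (by rw [hre]; linarith) hz2
      set a : ℝ := min r (z.re - t) with ha
      have ha0 : 0 < a := lt_min hr (by linarith)
      have ha1 : a ≤ r := min_le_left _ _
      have ha2 : a ≤ z.re - t := min_le_right _ _
      refine ⟨a / 4, by positivity, ?_⟩
      have hTa : ∀ᶠ N in (𝒰 : Filter ℕ), T N < t + a / 8 :=
        hTt.eventually (gt_mem_nhds (by linarith))
      filter_upwards [hev, hTa] with N hN hNa w hw
      have h1 := of_mem_ball hw
      have h2 := abs_lt.1 h1.1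
      refine Or.inl (Or.inr ⟨?_, ?_⟩)
      · show T N < w.re
        linarith
      · refine (hN (rf (T N) w) (mem_ball_of ?_)).2
        have e1 : (rf (T N) w).re - (rf t z).re = 2 * (T N - t) - (w.re - z.re) := by
          show 2 * T N - w.re - (2 * t - z.re) = _
          ring
        have e2 : (rf (T N) w).im - (rf t z).im = w.im - z.im := rfl
        rw [e1, e2]
        have h3 : |2 * (T N - t) - (w.re - z.re)| ≤ |2 * (T N - t)| + |w.re - z.re| :=
          abs_sub _ _
        have h4 : |2 * (T N - t)| = 2 * (T N - t) := abs_of_nonneg (by linarith [htT N])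
        rw [h4] at h3
        have h5 := h1.1
        have h6 := h1.2
        linarith
    · -- the third part
      have hyh : y ≤ h t := by
        have h1 : ∀ s, 0 < s → s < t → y ≤ h s := by
          intro s hs0 hst
          by_contra hcon
          rw [not_le] at hcon
          have hmax : max 0 (h s) < y := max_lt (lt_of_le_of_lt (abs_nonneg _) hy1) hcon
          obtain ⟨y', hy'1, hy'2⟩ := exists_between hmax
          obtain ⟨x, hx1, hx2⟩ := exists_between hst
          have hy'0 : 0 ≤ y' := (le_max_left _ _).trans hy'1.le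
          have hmem : (⟨x, y'⟩ : ℂ) ∈ GH H b h := hy2 ⟨hx2, by
            show |y'| < y
            rw [abs_of_nonneg hy'0]
            exact hy'2⟩
          obtain ⟨s', k1, k2, k3, k4⟩ := gh_pos hH (by
            show 0 ≤ x
            linarith) hmem
          have k3' : x < s' := k3
          have k4' : |y'| < h s' := k4
          rw [abs_of_nonneg hy'0] at k4'
          have k5 := hha s s' hs0 (by linarith) k2
          have k6 : h s < y' := lt_of_le_of_lt (le_max_right _ _) hy'1
          linarith
        refine le_of_forall_pos_le_add fun ε hε => ?_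
        obtain ⟨s, hs1, hs2, hs3⟩ := hh ε hε
        exact (h1 s hs1 hs2).trans hs3.le
      obtain ⟨y', hy'1, hy'2⟩ := exists_between hy1
      refine ⟨y' - |z.im|, by linarith, ?_⟩
      filter_upwards [(hlim t ⟨ht, htb.le⟩).eventually
        (lt_mem_nhds (lt_of_lt_of_le hy'2 hyh))] with N hN w hw
      have h1 := of_mem_ball hw
      refine Or.inr ⟨y', ?_, ?_⟩
      · have h6 : |w.im| ≤ |z.im| + |w.im - z.im| := by
          have := abs_add_le z.im (w.im - z.im)
          rwa [add_sub_cancel] at this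
        have := h1.2
        linarith
      · intro p hp
        refine Or.inr ⟨T N, lt_of_lt_of_le ht (htT N), (hT N).2.1, hp.1, ?_⟩
        rw [(hT N).2.2]
        exact hp.2.trans hN
  · intro z r hr hev
    rcases lt_trichotomy z.re t with hzt | hzt | hzt
    · refine Or.inl (Or.inl ⟨hzt, lemB z r hzt hr ?_⟩)
      filter_upwards [hev] with N hN w hw hwt
      have hwT : w.re < T N := lt_of_lt_of_le hwt (htT N)
      rcases hN hw with (⟨-, h2⟩ | ⟨h1, -⟩) | ⟨y, h1, h2⟩
      · exact h2
      · exact absurd h1 (not_lt.2 hwT.le)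
      · exact h2 ⟨hwT, h1⟩
    · -- the line
      have hge : ∀ s, 0 < s → s < t → |z.im| + r / 4 ≤ h s := by
        intro s hs0 hst
        refine ge_of_tendsto (hlim s ⟨hs0, by linarith⟩) ?_
        filter_upwards [hev] with N hN
        obtain ⟨x, hx1, hx2⟩ := exists_between (max_lt hst (by linarith : t - r / 4 < t))
        have hxs : s < x := lt_of_le_of_lt (le_max_left _ _) hx1
        have hxr : t - r / 4 < x := lt_of_le_of_lt (le_max_right _ _) hx1
        obtain ⟨x', hx'1, hx'2⟩ := exists_im z.im (r / 4) (by positivity)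
        have hw : (⟨x, x'⟩ : ℂ) ∈ ball z r := mem_ball_of (by
          show |x - z.re| + |x' - z.im| < r
          rw [hx'2, hzt, abs_of_neg (by linarith : x - t < 0)]
          linarith)
        have hwT : x < T N := lt_of_lt_of_le hx2 (htT N)
        have hmem : (⟨x, x'⟩ : ℂ) ∈ GH H b (g N) := by
          rcases hN hw with (⟨-, h2⟩ | ⟨h1, -⟩) | ⟨y, h1, h2⟩
          · exact h2
          · exact absurd h1 (not_lt.2 hwT.le)
          · exact h2 ⟨hwT, h1⟩
        obtain ⟨s', k1, k2, k3, k4⟩ := gh_pos hH (by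
          show 0 ≤ x
          linarith) hmem
        have k3' : x < s' := k3
        have k4' : |x'| < g N s' := k4
        have k5 := hanti N ⟨hs0, by linarith⟩ ⟨k1, k2⟩ (by linarith : s ≤ s')
        rw [hx'1] at k4'
        linarith
      refine Or.inr ⟨|z.im| + r / 4, by linarith, ?_⟩
      intro p hp
      obtain ⟨s, hs1, hs2⟩ := exists_between (max_lt ht hp.1)
      have hs0 : 0 < s := lt_of_le_of_lt (le_max_left _ _) hs1
      refine Or.inr ⟨s, hs0, by linarith, lt_of_le_of_lt (le_max_right _ _) hs1, ?_⟩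
      exact lt_of_lt_of_le hp.2 (hge s hs0 hs2)
    · have hre : (rf t z).re = 2 * t - z.re := rfl
      refine Or.inl (Or.inr ⟨hzt, lemB (rf t z) (r / 4) (by rw [hre]; linarith) (by positivity) ?_⟩)
      have hTa : ∀ᶠ N in (𝒰 : Filter ℕ), T N < t + r / 8 :=
        hTt.eventually (gt_mem_nhds (by linarith))
      filter_upwards [hev, hTa] with N hN hNa w hw hwt
      have h1 := of_mem_ball hw
      have hwT : w.re < T N := lt_of_lt_of_le hwt (htT N)
      have hmem : rf (T N) w ∈ ball z r := mem_ball_of (by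
        have e1 : (rf (T N) w).re - z.re = 2 * (T N - t) - (w.re - (rf t z).re) := by
          show 2 * T N - w.re - z.re = 2 * (T N - t) - (w.re - (2 * t - z.re))
          ring
        have e2 : (rf (T N) w).im - z.im = w.im - (rf t z).im := rfl
        rw [e1, e2]
        have h3 : |2 * (T N - t) - (w.re - (rf t z).re)| ≤
            |2 * (T N - t)| + |w.re - (rf t z).re| := abs_sub _ _
        have h4 : |2 * (T N - t)| = 2 * (T N - t) := abs_of_nonneg (by linarith [htT N])
        rw [h4] at h3
        have h5 := h1.1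
        have h6 := h1.2
        linarith)
      have hrr : rf (T N) (rf (T N) w) = w := by
        apply Complex.ext
        · show 2 * T N - (2 * T N - w.re) = w.re
          ring
        · rfl
      rcases hN hmem with (⟨h2, -⟩ | ⟨-, h2⟩) | ⟨y, h2, h3⟩
      · have h2' : 2 * T N - w.re < T N := h2
        linarith
      · rw [hrr] at h2
        exact h2
      · exact h3 ⟨hwT, h2⟩

end Pool.Agent.Q238.HM
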